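import Pool.Agent.L0h86.GQ.Stm

/-!
# TOPG: the vanishing over `K(√D)`
-/

set_option autoImplicit false
set_option linter.unusedVariables false

namespace Pool.Agent.L0h29.GQ

open Pool.Agent.L0h86.GQ
open Pool.Agent.Y715.Gi (QB KK GK ev lam)
open Pool.Agent.R384 (vl Coc CobOn CocOn md sgc kr es es_one es_open sgc_one cyc II DD)

theorem van_top {i₀ : QB} {χ : GK i₀ →* ℤ_[2]ˣ}
    (h : ∀ c : GK i₀ → ℚ_[2], Coc χ c →
      (∀ (p : ℕ) [Fact p.Prime] (ι : QB →ₐ[ℚ] PadicAlgCl p), p ≠ 2 →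
        CobOn χ (II ι : Set (GK i₀)) c) →
      (∀ ι : QB →ₐ[ℚ] PadicAlgCl 2, CobOn χ (DD ι : Set (GK i₀)) c) →
      ∃ y : ℚ_[2], ∀ σ, c σ = (vl χ σ - 1) * y) : VanG χ ⊤ := by
  intro c hc h1 h2
  have h3 : Coc χ c := by
    refine ⟨?_, fun σ τ => hc.mul σ trivial τ trivial⟩
    have h4 := hc.cont
    rwa [Subgroup.coe_top, continuousOn_univ] at h4
  obtain ⟨y, hy⟩ := h c h3
    (fun p _ ι hp => by
      obtain ⟨y, hy⟩ := h1 p ι hp
      exact ⟨y, fun σ hσ => hy σ hσ trivial⟩)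
    (fun ι => by
      obtain ⟨y, hy⟩ := h2 ι
      exact ⟨y, fun σ hσ => hy σ hσ trivial⟩)
  exact ⟨y, fun σ _ => hy σ⟩

theorem unit_eq_one {d d' : GaussianInt} (h : (1 : GaussianInt) = d * d')
    (hd : lam ^ 3 ∣ d - 1) : d = 1 := by
  have hn : d.norm * d'.norm = 1 := by
    rw [← Zsqrtd.norm_mul, ← h, Zsqrtd.norm_one]
  have hn0 : 0 ≤ d.norm := GaussianInt.norm_nonneg d
  have hn1 : d.norm = 1 := Int.eq_one_of_mul_eq_one_right hn0 hn
  have h8 : (8 : ℤ) ∣ (d - 1).norm := by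
    obtain ⟨e, he⟩ := hd
    refine ⟨e.norm, ?_⟩
    rw [he, Zsqrtd.norm_mul]
    congr 1
  have h1 : d.re * d.re + d.im * d.im = 1 := by
    have := Zsqrtd.norm_def d
    rw [hn1] at this
    linarith
  have h2 : (d - 1).norm = 2 - 2 * d.re := by
    rw [Zsqrtd.norm_def]
    simp only [Zsqrtd.re_sub, Zsqrtd.im_sub, Zsqrtd.re_one, Zsqrtd.im_one]
    linarith
  have h3 : -1 ≤ d.re := by nlinarith [sq_nonneg d.im]
  have h4 : d.re ≤ 1 := by nlinarith [sq_nonneg d.im]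
  rw [h2] at h8
  have h5 : d.re = 1 := by omega
  have h6 : d.im = 0 := by
    rw [h5] at h1
    have : d.im * d.im = 0 := by linarith
    exact mul_self_eq_zero.1 this
  exact Zsqrtd.ext (by rw [h5]; rfl) (by rw [h6]; rfl)

theorem t_TOPG (hV : S_VAN) (hS : S_STEP) : S_TOPG := by
  intro i₀ hi D hsq hD hn hc s hs0 hs hsD k
  refine hS i₀ (cyc i₀ ^ k) (es hs0 hs) ⊤ (es_open hs0 hs) ?_ ?_
  · have hs1 : ∀ σ : GK i₀, σ (1 : QB) = 1 ∨ σ (1 : QB) = -1 := fun σ => Or.inl (map_one σ)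
    have e : cyc i₀ ^ k = cyc i₀ ^ k * sgc (es one_ne_zero hs1) := by
      have h1 : sgc (es one_ne_zero hs1) = 1 := by
        ext1 σ
        exact sgc_one ((es_one one_ne_zero hs1).2 (map_one σ))
      rw [h1]
      exact (mul_one (cyc i₀ ^ k)).symm
    rw [e]
    refine van_top fun c hc1 h1 h2 => ?_
    exact hV i₀ hi 1 squarefree_one (by rw [sub_self]; exact dvd_zero _) (Or.inl rfl)
      (fun d d' hd _ hdd _ _ => Or.inl (unit_eq_one hdd hd)) 1 one_ne_zero hs1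
      (by rw [map_one, one_pow]) k c hc1 h1 h2
  · refine van_top fun c hc1 h1 h2 => ?_
    exact hV i₀ hi D hsq hD (Or.inr hn) hc s hs0 hs hsD k c hc1 h1 h2

end Pool.Agent.L0h29.GQ
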